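import Pool.Agent.H81.LR.Cfun
import Pool.Agent.H81.LR.Sweep

/-! Balanced generic dependencies with full support (module M8b of the linear range). -/

set_option linter.unusedSectionVars false

open Module Submodule H15 H81.WK H81.LR

namespace H97.LR

variable {ι : Type*} [Fintype ι] {E : Type*} [AddCommGroup E] [Module ℝ E]
  [FiniteDimensional ℝ E] {w : ι → E}

theorem mem_Dep {C : Set ι} {c : ι → ℝ} :
    c ∈ Dep w C ↔ (∀ i, i ∉ C → c i = 0) ∧ ∑ i, c i • w i = 0 := Iff.rfl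

/-- extension by zero -/
noncomputable def ext0 (C : Set ι) : (C → ℝ) →ₗ[ℝ] (ι → ℝ) :=
  Function.ExtendByZero.linearMap ℝ (Subtype.val : C → ι)

theorem ext0_mem {C : Set ι} (b : C → ℝ) (i : C) : ext0 C b i = b i := by
  unfold ext0
  exact Subtype.val_injective.extend_apply _ _ i

theorem ext0_notMem {C : Set ι} (b : C → ℝ) {i : ι} (hi : i ∉ C) : ext0 C b i = 0 := by
  unfold ext0
  show Function.extend Subtype.val b 0 i = 0
  rw [Function.extend_apply' _ _ _ (by
    rintro ⟨⟨k, hk⟩, rfl⟩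
    exact hi hk)]
  rfl

theorem ext0_inj (C : Set ι) : Function.Injective (ext0 C) := by
  intro a b h
  funext i
  rw [← ext0_mem a i, ← ext0_mem b i, h]

/-- `dim Dep w C = |C| - dim sp(C)`. -/
theorem finrank_Dep (w : ι → E) (C : Set ι) :
    finrank ℝ (Dep w C) + finrank ℝ (sp w C) = C.ncard := by
  classical
  let L : (C → ℝ) →ₗ[ℝ] E := (Fintype.linearCombination ℝ w).comp (ext0 C)
  have hL : ∀ b, L b = ∑ i, ext0 C b i • w i := fun b => by
    show Fintype.linearCombination ℝ w (ext0 C b) = _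
    rw [Fintype.linearCombination_apply]
  have hker : Dep w C = (LinearMap.ker L).map (ext0 C) := by
    ext c
    rw [mem_Dep, Submodule.mem_map]
    constructor
    · rintro ⟨h1, h2⟩
      have h3 : ext0 C (fun i => c i) = c := by
        funext i
        by_cases hi : i ∈ C
        · exact ext0_mem (fun i : C => c i) ⟨i, hi⟩
        · rw [ext0_notMem _ hi, h1 i hi]
      refine ⟨fun i => c i, ?_, h3⟩
      rw [LinearMap.mem_ker, hL, h3]
      exact h2
    · rintro ⟨b, hb, rfl⟩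
      rw [LinearMap.mem_ker, hL] at hb
      exact ⟨fun i hi => ext0_notMem _ hi, hb⟩
  have hran : LinearMap.range L = sp w C := by
    ext x
    rw [LinearMap.mem_range, mem_sp_iff]
    constructor
    · rintro ⟨b, rfl⟩
      exact ⟨ext0 C b, fun i hi => ext0_notMem _ hi, (hL b).symm⟩
    · rintro ⟨a, ha, rfl⟩
      refine ⟨fun i => a i, ?_⟩
      have h3 : ext0 C (fun i => a i) = a := by
        funext i
        by_cases hi : i ∈ C
        · exact ext0_mem (fun i : C => a i) ⟨i, hi⟩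
        · rw [ext0_notMem _ hi, ha i hi]
      rw [hL, h3]
  have h1 := LinearMap.finrank_range_add_finrank_ker L
  have h2 : finrank ℝ (Dep w C) = finrank ℝ (LinearMap.ker L) := by
    rw [hker]
    exact (Submodule.equivMapOfInjective (ext0 C) (ext0_inj C) (LinearMap.ker L)).finrank_eq.symm
  rw [hran, ← h2, Module.finrank_fintype_fun_eq_card, ← Nat.card_eq_fintype_card,
    Nat.card_coe_set_eq] at h1
  omega

/-- if all dependencies of `C` agree on `Z` with elements of `V` then `|Z| ≤ c(Cᶜ ∪ Z) + dim V`. -/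
theorem ncard_le_of_agr {C Z : Set ι} {V : Submodule ℝ (ι → ℝ)} (hsp : cc w Cᶜ = 0) (hZ : Z ⊆ C)
    (h : ∀ c ∈ Dep w C, ∃ d ∈ V, ∀ i ∈ Z, c i = d i) :
    Z.ncard ≤ cc w (Cᶜ ∪ Z) + finrank ℝ V := by
  classical
  let r : (ι → ℝ) →ₗ[ℝ] (Z → ℝ) := LinearMap.funLeft ℝ ℝ (Subtype.val : Z → ι)
  have h1 : (Dep w C).map r ≤ V.map r := by
    rintro _ ⟨c, hc, rfl⟩
    obtain ⟨d, hd, hcd⟩ := h c hc
    refine ⟨d, hd, ?_⟩
    funext i
    exact (hcd i i.2).symm
  have h2 : finrank ℝ ((Dep w C).map r) ≤ finrank ℝ V :=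
    (Submodule.finrank_mono h1).trans (Submodule.finrank_map_le r V)
  have h3 := LinearMap.finrank_range_add_finrank_ker (r.domRestrict (Dep w C))
  have hle : Dep w (C \ Z) ≤ Dep w C := by
    rintro c ⟨hc1, hc2⟩
    exact ⟨fun i hi => hc1 i (fun h' => hi h'.1), hc2⟩
  have h4 : LinearMap.ker (r.domRestrict (Dep w C)) = (Dep w (C \ Z)).comap (Dep w C).subtype := by
    ext c
    rw [LinearMap.mem_ker, Submodule.mem_comap]
    constructor
    · intro hc
      refine ⟨?_, c.2.2⟩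
      intro i hi
      by_cases hiC : i ∈ C
      · have hiZ : i ∈ Z := by
          by_contra h'
          exact hi ⟨hiC, h'⟩
        exact congrFun hc ⟨i, hiZ⟩
      · exact c.2.1 i hiC
    · rintro ⟨hc1, -⟩
      funext i
      exact hc1 i (fun h' => h'.2 i.2)
  have h5 : finrank ℝ (LinearMap.ker (r.domRestrict (Dep w C))) = finrank ℝ (Dep w (C \ Z)) := by
    rw [h4]
    exact (Submodule.comapSubtypeEquivOfLe hle).finrank_eq
  have h6 : LinearMap.range (r.domRestrict (Dep w C)) = (Dep w C).map r := by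
    rw [LinearMap.range_domRestrict]
  rw [h5, h6] at h3
  have h7 := finrank_Dep w C
  have h8 := finrank_Dep w (C \ Z)
  have h9 := cc_add w (Cᶜ ∪ Z)
  have e1 : (Cᶜ ∪ Z)ᶜ = C \ Z := by
    rw [Set.compl_union, compl_compl]; rfl
  rw [e1] at h9
  have h10 := Set.ncard_sdiff_add_ncard_of_subset hZ (Set.toFinite C)
  have h11 : sp w C = ⊤ := by
    have := cc_eq_zero_iff.1 hsp
    rwa [compl_compl] at this
  rw [h11, finrank_top] at h7
  omega

/-- generic dependencies. -/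
theorem exists_gen_dep (w : ι → E) (C : Set ι) {κ' : Type*} [Finite κ']
    (U : κ' → Submodule ℝ (ι → ℝ)) (hU : ∀ k, ¬ Dep w C ≤ U k) : ∃ c ∈ Dep w C, ∀ k, c ∉ U k := by
  obtain ⟨z, hz⟩ := H15.exists_generic (V := Dep w C) (fun k => (U k).comap (Dep w C).subtype) (by
    intro k hk
    apply hU k
    intro x hx
    have : (⟨x, hx⟩ : Dep w C) ∈ (⊤ : Submodule ℝ (Dep w C)) := Submodule.mem_top
    rw [← hk] at this
    exact this)
  exact ⟨z, z.2, fun k hk => hz k hk⟩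

/-- the vectors proportional to `y` on `Z` -/
def prop (y : ι → ℝ) (Z : Set ι) : Submodule ℝ (ι → ℝ) where
  carrier := {c | ∃ t : ℝ, ∀ i ∈ Z, c i = t * y i}
  add_mem' := by
    rintro a b ⟨t, h1⟩ ⟨t', h2⟩
    exact ⟨t + t', fun i hi => by simp only [Pi.add_apply, h1 i hi, h2 i hi]; ring⟩
  zero_mem' := ⟨0, fun i _ => by simp⟩
  smul_mem' := by
    rintro u a ⟨t, h1⟩
    exact ⟨u * t, fun i hi => by simp only [Pi.smul_apply, smul_eq_mul, h1 i hi]; ring⟩

/-- the case with many positive entries -/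
theorem balance_aux {C W : Set ι} (hsp : cc w Cᶜ = 0)
    (hW : W ⊆ C) (hser : ∀ Z, Z ⊆ W → Z.ncard ≤ cc w (Cᶜ ∪ Z) + 1 → 2 * Z.ncard ≤ W.ncard)
    {κ' : Type*} [Finite κ'] (U : κ' → Submodule ℝ (ι → ℝ)) {y : ι → ℝ} (hy : y ∈ Dep w C)
    (hy0 : ∀ i ∈ C, y i ≠ 0) (hyU : ∀ k, y ∉ U k)
    (hbig : 3 * W.ncard < 4 * {i | i ∈ W ∧ 0 < y i}.ncard) :
    ∃ c ∈ Dep w C, (∀ i ∈ C, c i ≠ 0) ∧ (∀ k, c ∉ U k) ∧
      W.ncard ≤ 4 * {i | i ∈ W ∧ 0 < c i}.ncard ∧ W.ncard ≤ 4 * {i | i ∈ W ∧ c i < 0}.ncard := by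
  classical
  obtain ⟨x, hx, hxg⟩ := exists_gen_dep w C (κ' := {Z : Set ι // ¬ Dep w C ≤ prop y Z})
    (fun Z => prop y Z.1) (fun Z => Z.2)
  have hxZ : ∀ Z : Set ι, x ∈ prop y Z → Dep w C ≤ prop y Z := by
    intro Z hxZ
    by_contra hcon
    exact hxg ⟨Z, hcon⟩ hxZ
  obtain ⟨a, b, hab, hsw⟩ := sweep x y W (fun i hi => hy0 i (hW hi)) (by
    intro t
    have hsub : {i | i ∈ W ∧ x i + t * y i = 0} ⊆ W := fun i hi => hi.1
    refine hser _ hsub ?_
    have h1 := hxZ {i | i ∈ W ∧ x i + t * y i = 0} ⟨-t, fun i hi => by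
      have := hi.2
      linarith⟩
    have h2 := ncard_le_of_agr (V := span ℝ {y}) hsp (hsub.trans hW) (by
      intro c hc
      obtain ⟨u, hu⟩ := h1 hc
      exact ⟨u • y, Submodule.mem_span_singleton.2 ⟨u, rfl⟩, fun i hi => by
        rw [hu i hi, Pi.smul_apply, smul_eq_mul]⟩)
    have h3 : finrank ℝ (span ℝ {y}) ≤ 1 := by
      refine (finrank_span_le_card ({y} : Set (ι → ℝ))).trans ?_
      simp
    omega) hbig
  -- a good time
  have hbadC : {t : ℝ | ∃ i ∈ C, x i + t * y i = 0}.Finite := by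
    have : {t : ℝ | ∃ i ∈ C, x i + t * y i = 0} ⊆ Set.range (fun i => -x i / y i) := by
      rintro t ⟨i, hi, ht⟩
      refine ⟨i, ?_⟩
      show -x i / y i = t
      rw [div_eq_iff (hy0 i hi)]
      linarith
    exact (Set.finite_range _).subset this
  have hbadU : {t : ℝ | ∃ k, x + t • y ∈ U k}.Finite := by
    have : {t : ℝ | ∃ k, x + t • y ∈ U k} = ⋃ k, {t : ℝ | x + t • y ∈ U k} := by
      ext t
      simp
    rw [this]
    refine Set.finite_iUnion fun k => Set.Subsingleton.finite ?_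
    intro t ht t' ht'
    have ht1 : x + t • y ∈ U k := ht
    have ht2 : x + t' • y ∈ U k := ht'
    by_contra hne
    apply hyU k
    have h1 : (t - t') • y ∈ U k := by
      have h2 := sub_mem ht1 ht2
      have h3 : x + t • y - (x + t' • y) = (t - t') • y := by
        rw [sub_smul]
        abel
      rwa [h3] at h2
    have h4 := Submodule.smul_mem (U k) (t - t')⁻¹ h1
    rwa [smul_smul, inv_mul_cancel₀ (sub_ne_zero.2 hne), one_smul] at h4
  obtain ⟨t, ht, htn⟩ := (Set.Ioo_infinite hab).exists_notMem_finite (hbadC.union hbadU)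
  obtain ⟨-, h2, h3⟩ := hsw t ht.1 ht.2
  refine ⟨x + t • y, add_mem hx (Submodule.smul_mem _ _ hy), ?_, ?_, h2, h3⟩
  · intro i hi h0
    exact htn (Or.inl ⟨i, hi, h0⟩)
  · intro k hk
    exact htn (Or.inr ⟨k, hk⟩)

/-- **BALANCE**, section 9 of the note. -/
theorem balance {C W : Set ι} (hsp : cc w Cᶜ = 0) (hcol : ∀ e ∈ C, cc w (Cᶜ ∪ {e}) = 0)
    (hW : W ⊆ C) (hser : ∀ Z, Z ⊆ W → Z.ncard ≤ cc w (Cᶜ ∪ Z) + 1 → 2 * Z.ncard ≤ W.ncard)
    {κ' : Type*} [Finite κ'] (U : κ' → Submodule ℝ (ι → ℝ)) (hU : ∀ k, ¬ Dep w C ≤ U k) :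
    ∃ c ∈ Dep w C, (∀ i ∈ C, c i ≠ 0) ∧ (∀ k, c ∉ U k) ∧
      W.ncard ≤ 4 * {i | i ∈ W ∧ 0 < c i}.ncard ∧ W.ncard ≤ 4 * {i | i ∈ W ∧ c i < 0}.ncard := by
  classical
  obtain ⟨y, hy, hyg⟩ := exists_gen_dep w C (κ' := κ' ⊕ C)
    (Sum.elim U (fun i => LinearMap.ker (LinearMap.proj (R := ℝ) (φ := fun _ : ι => ℝ) (i : ι)))) (by
      rintro (k | ⟨i, hi⟩)
      · exact hU k
      · intro hle
        have h1 := ncard_le_of_agr (V := (⊥ : Submodule ℝ (ι → ℝ))) (Z := {i}) hsp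
          (Set.singleton_subset_iff.2 hi) (by
            intro c hc
            refine ⟨0, zero_mem _, ?_⟩
            intro l hl
            rw [Set.mem_singleton_iff.1 hl]
            exact hle hc)
        rw [hcol i hi, Set.ncard_singleton, finrank_bot] at h1
        omega)
  have hyU : ∀ k, y ∉ U k := fun k => hyg (Sum.inl k)
  have hy0 : ∀ i ∈ C, y i ≠ 0 := by
    intro i hi h0
    exact hyg (Sum.inr ⟨i, hi⟩) h0
  have hsplit : {i | i ∈ W ∧ 0 < y i}.ncard + {i | i ∈ W ∧ y i < 0}.ncard = W.ncard := by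
    rw [← Set.ncard_union_eq _ (Set.toFinite _) (Set.toFinite _)]
    · congr 1
      ext i
      simp only [Set.mem_union, Set.mem_ofPred_eq]
      constructor
      · rintro (h | h)
        · exact h.1
        · exact h.1
      · intro h
        rcases lt_trichotomy (y i) 0 with h1 | h1 | h1
        · exact Or.inr ⟨h, h1⟩
        · exact absurd h1 (hy0 i (hW h))
        · exact Or.inl ⟨h, h1⟩
    · rw [Set.disjoint_left]
      rintro i ⟨-, h1⟩ ⟨-, h2⟩
      linarith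
  by_cases hp : W.ncard ≤ 4 * {i | i ∈ W ∧ 0 < y i}.ncard
  · by_cases hn : W.ncard ≤ 4 * {i | i ∈ W ∧ y i < 0}.ncard
    · exact ⟨y, hy, hy0, hyU, hp, hn⟩
    · exact balance_aux hsp hW hser U hy hy0 hyU (by omega)
  · have hneg : {i | i ∈ W ∧ 0 < (-y) i} = {i | i ∈ W ∧ y i < 0} := by
      ext i
      simp
    refine balance_aux hsp hW hser U (neg_mem hy) ?_ ?_ ?_
    · intro i hi h0
      exact hy0 i hi (by simpa using h0)
    · intro k hk
      exact hyU k (by simpa using neg_mem hk)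
    · rw [hneg]
      omega

end H97.LR
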